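import Pool.Agent.Lib.MP_ce1fc8_nt.Sieve3

namespace Pool.Agent.Lib.MP_927e73_nt

open Finset Pool.Agent.Lib.MP_ce1fc8_nt

theorem gen_bound (R : ℕ → ℕ → Prop) [∀ p r, Decidable (R p r)] (k Q y X : ℕ) (hk : 1 ≤ k)
    (hQ : Q ≠ 0) (hy : 1 ≤ y)
    (hkQ : ∀ p, p.Prime → ¬ p ∣ Q → 2 * k ≤ p ∧ ((range p).filter (fun r => R p r)).card = k)
    (hper : ∀ p n, R p (n + p) ↔ R p n)
    (E : Finset ℕ) (hE : E ⊆ range X)
    (hEp : ∀ n ∈ E, ∀ p, p.Prime → p < n → ¬ R p n) :
    (E.card : ℝ) ≤ eul Q ^ k * (X / Real.log ((y : ℝ) + 1) ^ k + 4 * ((y : ℝ) ^ k) ^ 4) := by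
  classical
  set z := y ^ k with hz
  have hz1 : 1 ≤ z := Nat.one_le_pow _ _ hy
  set P := (range (z + 1)).filter (fun p => p.Prime ∧ ¬ p ∣ Q) with hP
  set hh : ℕ → ℝ := fun p => (k : ℝ) / ((p : ℝ) - k) with hhh
  have hk' : (1 : ℝ) ≤ k := by exact_mod_cast hk
  have hPp : ∀ p ∈ P, p.Prime := fun p hp => (mem_filter.mp hp).2.1
  have hPk : ∀ p ∈ P, (2 * k : ℝ) ≤ p := fun p hp => by
    exact_mod_cast (hkQ p (hPp p hp) (mem_filter.mp hp).2.2).1
  have hcount : ∀ p ∈ P, ∀ a b : ℝ, ∑ r ∈ range p, (if R p r then a else b) =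
      k * a + ((p : ℝ) - k) * b := by
    intro p hp a b
    have h1 := (hkQ p (hPp p hp) (mem_filter.mp hp).2.2).2
    have h2 := card_filter_add_card_filter_not (s := range p) (fun r => R p r)
    rw [h1, card_range] at h2
    have h3 : (((range p).filter (fun r => ¬ R p r)).card : ℝ) = p - k := by
      have h4 := congrArg (Nat.cast : ℕ → ℝ) h2
      push_cast at h4
      linarith
    rw [sum_ite, sum_const, sum_const, nsmul_eq_mul, nsmul_eq_mul, h1, h3]
  have hmain := sieve_abstract P hPp (fun p n => if R p n then -1 else hh p) hh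
    (by
      intro p _ n
      simp only [hper])
    (by
      intro p hp n
      have := hPk p hp
      split_ifs
      · simp
      · simp only [hhh]
        rw [abs_of_nonneg (div_nonneg (by linarith) (by linarith)), div_le_one (by linarith)]
        linarith)
    (by
      intro p hp
      have := hPk p hp
      rw [hcount p hp]
      simp only [hhh]
      have : (p : ℝ) - k ≠ 0 := by linarith
      field_simp
      ring)
    (by
      intro p hp
      have := hPk p hp
      have e : ∀ r, (if R p r then (-1 : ℝ) else hh p) *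
          (if R p r then (-1 : ℝ) else hh p) =
          if R p r then (1 : ℝ) else hh p * hh p := by
        intro r
        split_ifs <;> simp
      simp only [e]
      rw [hcount p hp]
      simp only [hhh]
      have : (p : ℝ) - k ≠ 0 := by linarith
      field_simp
      ring)
    X z (E.filter (fun n => z < n)) ((filter_subset _ _).trans hE)
    (by
      intro n hn p hp
      obtain ⟨hn1, hn2⟩ := mem_filter.mp hn
      rw [if_neg]
      have h2 := mem_range.mp (mem_filter.mp hp).1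
      exact hEp n hn1 p (hPp p hp) (by omega))
  have hG1 := Gsum_lower k Q y hQ hk (fun p hp hpQ => (hkQ p hp hpQ).1)
  rw [← hz, ← hP, ← hhh] at hG1
  have hG2 : 1 ≤ Gsum hh P z := by
    unfold Gsum
    have h1 : (∅ : Finset ℕ) ∈ P.powerset.filter (fun D => ∏ p ∈ D, p ≤ z) := by
      simp [hz1]
    have h2 := single_le_sum (f := fun D : Finset ℕ => ∏ p ∈ D, hh p) (fun D hD => by
      apply prod_nonneg
      intro p hp
      have := hPk p (mem_powerset.mp (mem_filter.mp hD).1 hp)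
      exact div_nonneg (by linarith) (by linarith)) h1
    simpa using h2
  set G := Gsum hh P z with hG
  have hlog : 0 < Real.log ((y : ℝ) + 1) := by
    apply Real.log_pos
    have : (1 : ℝ) ≤ y := by exact_mod_cast hy
    linarith
  have he1 := one_le_eul Q
  have hek : 1 ≤ eul Q ^ k := one_le_pow₀ he1
  have hz' : (1 : ℝ) ≤ z := by exact_mod_cast hz1
  have h1 : ((E.filter (fun n => z < n)).card : ℝ) ≤ X / G + 2 * (z : ℝ) ^ 4 := by
    have h2 : ((E.filter (fun n => z < n)).card : ℝ) * G ^ 2 ≤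
        (X / G + 2 * (z : ℝ) ^ 4) * G ^ 2 := by
      refine hmain.trans ?_
      have h3 : 1 ≤ G ^ 2 := one_le_pow₀ hG2
      have h4 : (X / G + 2 * (z : ℝ) ^ 4) * G ^ 2 = X * G + 2 * (z : ℝ) ^ 4 * G ^ 2 := by
        field_simp
      rw [h4]
      have h5 : 2 * (z : ℝ) ^ 4 * 1 ≤ 2 * (z : ℝ) ^ 4 * G ^ 2 := by gcongr
      linarith
    exact le_of_mul_le_mul_right h2 (by positivity)
  have h2 : (X : ℝ) / G ≤ eul Q ^ k * (X / Real.log ((y : ℝ) + 1) ^ k) := by
    calc (X : ℝ) / G ≤ X / (Real.log ((y : ℝ) + 1) / eul Q) ^ k := by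
          apply div_le_div_of_nonneg_left (by positivity) (by positivity) hG1
      _ = _ := by rw [div_pow]; field_simp
  have h3 : E.card ≤ (E.filter (fun n => z < n)).card + (z + 1) := by
    have hsub : E ⊆ E.filter (fun n => z < n) ∪ range (z + 1) := by
      intro n hn
      simp only [mem_union, mem_filter, mem_range]
      by_cases hc : z < n
      · exact Or.inl ⟨hn, hc⟩
      · exact Or.inr (by omega)
    have := (card_le_card hsub).trans (card_union_le _ _)
    rwa [card_range] at this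
  have h4 : (E.card : ℝ) ≤ (E.filter (fun n => z < n)).card + (z + 1) := by exact_mod_cast h3
  have h5 : (z : ℝ) ≤ (z : ℝ) ^ 4 := le_self_pow₀ hz' (by norm_num)
  have h6 : ((y : ℝ) ^ k) = z := by rw [hz]; push_cast; ring
  rw [h6, mul_add]
  have h7 : 1 * (4 * (z : ℝ) ^ 4) ≤ eul Q ^ k * (4 * (z : ℝ) ^ 4) := by gcongr
  linarith

lemma two_roots (a p : ℕ) (b : ℤ) (hb : b = 1 ∨ b = -1) (hp : p.Prime) (ha : ¬ p ∣ a) :
    ((range p).filter (fun r : ℕ => p ∣ r ∨ (p : ℤ) ∣ a * r + b)).card = 2 := by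
  haveI := Fact.mk hp
  have ha' : (a : ZMod p) ≠ 0 := by rwa [Ne, ZMod.natCast_eq_zero_iff]
  have hb' : (b : ZMod p) ≠ 0 := by rcases hb with rfl | rfl <;> simp
  set r0 : ℕ := (-(b : ZMod p) * (a : ZMod p)⁻¹).val with hr0
  have hne : r0 ≠ 0 := by
    rw [hr0, Ne, ZMod.val_eq_zero]
    exact mul_ne_zero (neg_ne_zero.mpr hb') (inv_ne_zero ha')
  have : (range p).filter (fun r : ℕ => p ∣ r ∨ (p : ℤ) ∣ a * r + b) = {0, r0} := by
    ext r
    simp only [mem_filter, mem_range, mem_insert, mem_singleton]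
    rw [← ZMod.intCast_zmod_eq_zero_iff_dvd]
    push_cast
    constructor
    · rintro ⟨h1, h2 | h2⟩
      · left; exact Nat.eq_zero_of_dvd_of_lt h2 h1
      · right
        have : (r : ZMod p) = -(b : ZMod p) * (a : ZMod p)⁻¹ := by
          field_simp
          linear_combination h2
        rw [hr0, ← this, ZMod.val_cast_of_lt h1]
    · rintro (rfl | rfl)
      · exact ⟨hp.pos, Or.inl (dvd_zero _)⟩
      · refine ⟨ZMod.val_lt _, Or.inr ?_⟩
        rw [hr0, ZMod.natCast_zmod_val]
        field_simp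
        ring
  rw [this, card_pair hne.symm]

theorem pair_bound (a y X : ℕ) (b : ℤ) (hb : b = 1 ∨ b = -1) (ha : 2 ≤ a) (hy : 1 ≤ y)
    (E : Finset ℕ) (hE : E ⊆ range X)
    (hEp : ∀ n ∈ E, n.Prime ∧ ∃ q : ℕ, q.Prime ∧ (q : ℤ) = a * n + b) :
    (E.card : ℝ) ≤ eul (6 * a) ^ 2 * (X / Real.log ((y : ℝ) + 1) ^ 2 + 4 * ((y : ℝ) ^ 2) ^ 4) := by
  refine gen_bound (fun p r => p ∣ r ∨ (p : ℤ) ∣ a * r + b) 2 (6 * a) y X (by norm_num)
    (by omega) hy ?_ ?_ E hE ?_
  · intro p hp hpQ
    refine ⟨?_, two_roots a p b hb hp (fun h => hpQ (h.mul_left _))⟩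
    by_contra hlt
    have h2 := hp.two_le
    have : p = 2 ∨ p = 3 := by omega
    rcases this with rfl | rfl
    · exact hpQ (by omega)
    · exact hpQ (by omega)
  · intro p n
    have e1 : p ∣ n + p ↔ p ∣ n := (Nat.dvd_add_iff_left (dvd_refl p)).symm
    have e2 : (p : ℤ) ∣ a * ((n + p : ℕ) : ℤ) + b ↔ (p : ℤ) ∣ a * n + b := by
      have : (a : ℤ) * ((n + p : ℕ) : ℤ) + b = (a * n + b) + p * a := by push_cast; ring
      rw [this]
      exact dvd_add_left (dvd_mul_right _ _)
    simp only [e1, e2]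
  · intro n hn p hp hpn
    obtain ⟨h1, q, h2, h3⟩ := hEp n hn
    rintro (h | h)
    · have := (Nat.prime_dvd_prime_iff_eq hp h1).mp h
      omega
    · rw [← h3, Int.natCast_dvd_natCast] at h
      have h4 := (Nat.prime_dvd_prime_iff_eq hp h2).mp h
      subst h4
      have h5 : (2 : ℤ) * n ≤ a * n := by
        apply mul_le_mul_of_nonneg_right (by exact_mod_cast ha) (by positivity)
      have h6 : (p : ℤ) < n := by exact_mod_cast hpn
      have h7 : (0 : ℤ) < p := by exact_mod_cast hp.pos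
      rcases hb with rfl | rfl <;> omega

end Pool.Agent.Lib.MP_927e73_nt
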