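import Pool.Agent.Lib.MP_927e73_nt.Rank
import Pool.Agent.Lib.MP_927e73_nt.Sieve

namespace Pool.Agent.Lib.MP_927e73_nt

open Finset Pool.Agent.Lib.MP_ce1fc8_nt

lemma pair_bound' (j X : ℕ) (b : ℤ) (hb : b = 1 ∨ b = -1) (hj : 1 ≤ j) (hX : 2 ≤ X)
    (E : Finset ℕ) (hE : E ⊆ range X)
    (hEp : ∀ n ∈ E, n.Prime ∧ ∃ q : ℕ, q.Prime ∧ (q : ℤ) = 2 * j * n + b) :
    (E.card : ℝ) ≤ eul 12 ^ 2 * 500 * (X / Real.log X ^ 2) * eul j ^ 2 := by
  set y := Nat.nthRoot 10 X with hy
  have hy1 : 1 ≤ y := by rw [hy, Nat.le_nthRoot_iff (by norm_num)]; omega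
  have hy2 : y ^ 10 ≤ X := Nat.pow_nthRoot_le_iff.mpr (Or.inl (by norm_num))
  have hy3 : X < (y + 1) ^ 10 := Nat.lt_pow_nthRoot_add_one (by norm_num) X
  have h1 := pair_bound (2 * j) y X b hb (by omega) hy1 E hE (by
    intro n hn
    obtain ⟨a1, q, a2, a3⟩ := hEp n hn
    exact ⟨a1, q, a2, by rw [a3]; push_cast; ring⟩)
  have hX' : (2 : ℝ) ≤ X := by exact_mod_cast hX
  have hy1' : (1 : ℝ) ≤ y := by exact_mod_cast hy1
  have hL : 0 < Real.log X := Real.log_pos (by linarith)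
  have hL1 : 0 < Real.log ((y : ℝ) + 1) := Real.log_pos (by linarith)
  have hL2 : Real.log X ≤ 10 * Real.log ((y : ℝ) + 1) := by
    have : (X : ℝ) ≤ ((y : ℝ) + 1) ^ 10 := by exact_mod_cast hy3.le
    have h2 := Real.log_le_log (by linarith) this
    rw [Real.log_pow] at h2
    exact_mod_cast h2
  have hL3 : Real.log ((y : ℝ) + 1) ≤ y := by
    have := Real.log_le_sub_one_of_pos (x := (y : ℝ) + 1) (by linarith)
    linarith
  have h2 : (X : ℝ) / Real.log ((y : ℝ) + 1) ^ 2 ≤ 100 * (X / Real.log X ^ 2) := by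
    rw [← mul_div_assoc, div_le_div_iff₀ (by positivity) (by positivity)]
    have : Real.log X ^ 2 ≤ (10 * Real.log ((y : ℝ) + 1)) ^ 2 := by gcongr
    nlinarith
  have h3 : ((y : ℝ) ^ 2) ^ 4 ≤ 100 * (X / Real.log X ^ 2) := by
    rw [← mul_div_assoc, le_div_iff₀ (by positivity)]
    have a1 : Real.log X ^ 2 ≤ (10 * (y : ℝ)) ^ 2 := by
      gcongr
      linarith
    have a2 : (y : ℝ) ^ 10 ≤ X := by exact_mod_cast hy2
    calc ((y : ℝ) ^ 2) ^ 4 * Real.log X ^ 2 ≤ ((y : ℝ) ^ 2) ^ 4 * (10 * (y : ℝ)) ^ 2 := by gcongr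
      _ = 100 * (y : ℝ) ^ 10 := by ring
      _ ≤ _ := by linarith
  have h4 : eul (6 * (2 * j)) ≤ eul 12 * eul j := by
    have : 6 * (2 * j) = 12 * j := by ring
    rw [this]
    exact eul_mul_le 12 j (by norm_num) (by omega)
  have h5 := one_le_eul (6 * (2 * j))
  have h6 : eul (6 * (2 * j)) ^ 2 ≤ (eul 12 * eul j) ^ 2 := by gcongr
  refine h1.trans ?_
  calc eul (6 * (2 * j)) ^ 2 * (X / Real.log ((y : ℝ) + 1) ^ 2 + 4 * ((y : ℝ) ^ 2) ^ 4)
      ≤ (eul 12 * eul j) ^ 2 * (500 * (X / Real.log X ^ 2)) := by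
        apply mul_le_mul h6 (by linarith) (by positivity) (by positivity)
    _ = _ := by ring

lemma count_bound : ∃ K : ℝ, 0 < K ∧ ∀ (J X : ℕ), 2 ≤ X → ∀ E : Finset ℕ, E ⊆ range X →
    (∀ n ∈ E, n.Prime ∧ ∃ j q : ℕ, 1 ≤ j ∧ j ≤ J ∧ q.Prime ∧
      (q = 2 * j * n + 1 ∨ q + 1 = 2 * j * n)) →
    (E.card : ℝ) ≤ K * J * (X / Real.log X ^ 2) := by
  classical
  obtain ⟨C, hC, h1⟩ := sum_eul_le 2
  have he := one_le_eul 12
  refine ⟨eul 12 ^ 2 * 500 * 2 * (2 * C), by positivity, ?_⟩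
  intro J X hX E hE hEp
  set F : ℕ → ℤ → Finset ℕ := fun j b =>
    E.filter (fun n => ∃ q : ℕ, q.Prime ∧ (q : ℤ) = 2 * j * n + b) with hF
  have hsub : E ⊆ (Icc 1 J).biUnion (fun j => F j 1 ∪ F j (-1)) := by
    intro n hn
    obtain ⟨_, j, q, a1, a2, a3, a4⟩ := hEp n hn
    refine mem_biUnion.mpr ⟨j, mem_Icc.mpr ⟨a1, a2⟩, ?_⟩
    rcases a4 with a4 | a4
    · exact mem_union_left _ (mem_filter.mpr ⟨hn, q, a3, by rw [a4]; push_cast; ring⟩)
    · refine mem_union_right _ (mem_filter.mpr ⟨hn, q, a3, ?_⟩)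
      have : ((q + 1 : ℕ) : ℤ) = ((2 * j * n : ℕ) : ℤ) := by rw [a4]
      push_cast at this
      linarith
  have hX' : (2 : ℝ) ≤ X := by exact_mod_cast hX
  have hL : 0 < Real.log X := Real.log_pos (by linarith)
  set B := eul 12 ^ 2 * 500 * (X / Real.log X ^ 2) with hB
  have hB0 : 0 ≤ B := by positivity
  have h2 : ∀ j ∈ Icc 1 J, (((F j 1 ∪ F j (-1)).card : ℕ) : ℝ) ≤ 2 * B * eul (dd j 0) ^ 2 := by
    intro j hj
    have hj1 := (mem_Icc.mp hj).1
    have b1 := pair_bound' j X 1 (Or.inl rfl) hj1 hX (F j 1) ((filter_subset _ _).trans hE)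
      (fun n hn => ⟨(hEp n (mem_filter.mp hn).1).1, (mem_filter.mp hn).2⟩)
    have b2 := pair_bound' j X (-1) (Or.inr rfl) hj1 hX (F j (-1)) ((filter_subset _ _).trans hE)
      (fun n hn => ⟨(hEp n (mem_filter.mp hn).1).1, (mem_filter.mp hn).2⟩)
    have b3 : (((F j 1 ∪ F j (-1)).card : ℕ) : ℝ) ≤ (F j 1).card + (F j (-1)).card := by
      exact_mod_cast card_union_le _ _
    have b4 : dd j 0 = j := by simp [dd]
    rw [b4]
    linarith
  have h3 : (E.card : ℝ) ≤ ∑ j ∈ Icc 1 J, (((F j 1 ∪ F j (-1)).card : ℕ) : ℝ) := by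
    exact_mod_cast (card_le_card hsub).trans card_biUnion_le
  have h4 := h1 1 J J 0 (Icc 1 J) (Nat.zero_le _)
    (fun j hj => by have := mem_Icc.mp hj; exact mem_Ico.mpr ⟨this.1, by omega⟩)
    (fun j hj => by have := mem_Icc.mp hj; exact ⟨this.2, by omega⟩)
  have h5 : Real.sqrt J ≤ J := by
    rw [Real.sqrt_le_left (by positivity)]
    have : J ≤ J ^ 2 := Nat.le_self_pow (by norm_num) J
    exact_mod_cast this
  refine h3.trans ((sum_le_sum h2).trans ?_)
  rw [← mul_sum]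
  calc 2 * B * ∑ j ∈ Icc 1 J, eul (dd j 0) ^ 2 ≤ 2 * B * (C * (J + J)) := by
        apply mul_le_mul_of_nonneg_left (h4.trans _) (by positivity)
        gcongr
    _ = _ := by rw [hB]; ring

lemma total_lower (x : ℕ) (hx : 300 ≤ x) :
    ((2 * x + 2 : ℕ) : ℝ) / (4 * Real.log ((2 * x + 2 : ℕ) : ℝ)) ≤
      (((range (x + 1)).filter (fun k => (2 * k + 1).Prime)).card : ℝ) := by
  set X := 2 * x + 2 with hX
  have h1 := Chebyshev.pi_ge X
  have h2 : Nat.primeCounting X ≤ ((range (x + 1)).filter (fun k => (2 * k + 1).Prime)).card + 1 := by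
    rw [← Nat.primesLE_card_eq_primeCounting]
    have : Nat.primesLE X ⊆ insert 2
        (((range (x + 1)).filter (fun k => (2 * k + 1).Prime)).image (fun k => 2 * k + 1)) := by
      intro p hp
      obtain ⟨a1, a2⟩ := Nat.mem_primesLE.mp hp
      rcases a2.eq_two_or_odd' with rfl | ⟨k, rfl⟩
      · exact mem_insert_self _ _
      · exact mem_insert_of_mem (mem_image.mpr ⟨k, mem_filter.mpr ⟨mem_range.mpr (by omega), a2⟩, rfl⟩)
    refine (card_le_card this).trans ((card_insert_le _ _).trans ?_)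
    have := card_image_le (s := (range (x + 1)).filter (fun k => (2 * k + 1).Prime))
      (f := fun k => 2 * k + 1)
    omega
  have h3 : (Nat.primeCounting X : ℝ) ≤
      (((range (x + 1)).filter (fun k => (2 * k + 1).Prime)).card : ℝ) + 1 := by exact_mod_cast h2
  have hX' : (602 : ℝ) ≤ X := by exact_mod_cast (by omega : 602 ≤ X)
  have hL : 0 < Real.log X := Real.log_pos (by linarith)
  have hlog : ∀ t : ℝ, 0 < t → Real.log t ≤ t / 100 + 98 := by
    intro t ht
    have a1 := Real.log_le_sub_one_of_pos (x := t / 100) (by positivity)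
    rw [Real.log_div ht.ne' (by norm_num)] at a1
    have a2 := Real.log_le_sub_one_of_pos (x := (100 : ℝ)) (by norm_num)
    linarith
  have a1 := hlog X (by linarith)
  have a2 := hlog ((X : ℝ) + 1) (by linarith)
  have a3 := Real.log_two_gt_d9
  have h4 : (X : ℝ) / (4 * Real.log X) + 1 ≤ (X * Real.log 2 - Real.log (X + 1)) / Real.log X := by
    rw [le_div_iff₀ hL]
    have : ((X : ℝ) / (4 * Real.log X) + 1) * Real.log X = X / 4 + Real.log X := by
      field_simp
    rw [this]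
    nlinarith
  linarith

lemma bad_bound (ε : ℝ) (hε : 0 < ε) : ∃ c : ℝ, 0 < c ∧ ∀ x : ℕ, 300 ≤ x → ∀ E : Finset ℕ,
    E ⊆ range (x + 1) → (∀ k ∈ E, (2 * k + 1).Prime ∧ ∃ q : ℕ, q.Prime ∧
      (q : ℤ) ∣ (pw (2 * k + 1)).re * (pw (2 * k + 1)).im ∧
      (q : ℝ) ≤ c * Real.log ((pw (2 * k + 1)).re) * Real.log (Real.log ((pw (2 * k + 1)).re))) →
    (E.card : ℝ) ≤ ε * (((range (x + 1)).filter (fun k => (2 * k + 1).Prime)).card : ℝ) := by
  classical
  obtain ⟨K, hK, h1⟩ := count_bound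
  set c := ε / (16 * K) with hc
  have hc0 : 0 < c := by positivity
  refine ⟨c, hc0, ?_⟩
  intro x hx E hE hEp
  have h2 := total_lower x hx
  set X := 2 * x + 2 with hX
  have hX' : (602 : ℝ) ≤ X := by exact_mod_cast (by omega : 602 ≤ X)
  have hL : 0 < Real.log X := Real.log_pos (by linarith)
  set J := ⌊4 * c * Real.log X⌋₊ with hJ
  have hJ1 : (J : ℝ) ≤ 4 * c * Real.log X := Nat.floor_le (by positivity)
  have h3 := h1 J X (by omega) (E.image (fun k => 2 * k + 1)) (by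
      intro n hn
      obtain ⟨k, hk, rfl⟩ := mem_image.mp hn
      have := mem_range.mp (hE hk)
      exact mem_range.mpr (by omega)) (by
      intro n hn
      obtain ⟨k, hk, rfl⟩ := mem_image.mp hn
      have hkx := mem_range.mp (hE hk)
      obtain ⟨a1, q, a2, a3, a4⟩ := hEp k hk
      refine ⟨a1, ?_⟩
      obtain ⟨j, b1, b2⟩ := rank_dvd a1 ⟨k, rfl⟩ a2 a3
      refine ⟨j, q, b1, ?_, a2, b2⟩
      rw [hJ, Nat.le_floor_iff (by positivity)]
      set n := 2 * k + 1 with hn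
      have hn3 : 3 ≤ n := by have := a1.two_le; omega
      have hnX : n ≤ X := by omega
      have hn3' : (3 : ℝ) ≤ n := by exact_mod_cast hn3
      have hnX' : (n : ℝ) ≤ X := by exact_mod_cast hnX
      obtain ⟨c1, -, -, c2, -, -⟩ := pw_bounds n
      have c1' : (n : ℝ) ≤ ((pw n).re : ℝ) := by exact_mod_cast c1
      have c2' : ((pw n).re : ℝ) ≤ 3 ^ n := by exact_mod_cast c2
      set t := Real.log ((pw n).re) with ht
      have t1 : 1 ≤ t := by
        rw [ht, Real.le_log_iff_exp_le (by linarith)]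
        have := Real.exp_one_lt_d9
        linarith
      have t2 : t ≤ 2 * n := by
        have d1 := Real.log_le_log (by linarith) c2'
        rw [Real.log_pow] at d1
        have d2 := Real.log_le_sub_one_of_pos (x := (3 : ℝ)) (by norm_num)
        nlinarith
      have t3 : Real.log t ≤ 2 * Real.log X := by
        have d1 : t ≤ (X : ℝ) ^ 2 := by nlinarith
        have d2 := Real.log_le_log (by linarith) d1
        rw [Real.log_pow] at d2
        exact_mod_cast d2
      have t4 : 0 ≤ Real.log t := Real.log_nonneg t1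
      have t5 : c * t * Real.log t ≤ c * (2 * n) * (2 * Real.log X) := by gcongr
      have t6 : j * n ≤ q := by
        have : 1 ≤ j * n := Nat.mul_pos b1 (by omega)
        have e : 2 * j * n = 2 * (j * n) := by ring
        rw [e] at b2
        omega
      have t7 : (j : ℝ) * n ≤ q := by exact_mod_cast t6
      have t8 : (j : ℝ) * n ≤ (4 * c * Real.log X) * n := by nlinarith
      exact le_of_mul_le_mul_right t8 (by linarith))
  rw [card_image_of_injective _ (fun a b h => by simpa using h)] at h3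
  refine h3.trans (le_trans ?_ (mul_le_mul_of_nonneg_left h2 hε.le))
  calc K * J * (X / Real.log X ^ 2) ≤ K * (4 * c * Real.log X) * (X / Real.log X ^ 2) := by gcongr
    _ = _ := by rw [hc]; field_simp; ring

end Pool.Agent.Lib.MP_927e73_nt
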