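import Pool.Agent.Lib.MP_927e73_nt.Count

namespace Pool.Agent.Lib.MP_927e73_nt

open Finset

lemma eq_pw (a b m : ℕ) (h : (a : ℝ) + b * √2 = (1 + √2) ^ m) :
    (a : ℤ) = (pw m).re ∧ (b : ℤ) = (pw m).im := by
  rw [pw_eval (√2 : ℝ) (Real.sq_sqrt (by norm_num)) m] at h
  have h1 : ((a - (pw m).re : ℤ) : ℝ) = ((pw m).im - b : ℤ) * √2 := by
    push_cast; linarith
  by_cases h2 : (pw m).im - b = 0
  · rw [h2] at h1
    simp only [Int.cast_zero, zero_mul, Int.cast_eq_zero] at h1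
    omega
  · exact absurd h1.symm ((irrational_sqrt_two.intCast_mul h2).ne_int _)

open Classical in
theorem density (p r : ℕ → ℕ) (h : ∀ k, (p k : ℝ) + r k * √2 = (1 + √2) ^ (2 * k + 1))
    (ε : ℝ) (hε : 0 < ε) : ∃ c : ℝ, 0 < c ∧ ∀ x : ℕ, 300 ≤ x →
      (((range (x + 1)).filter (fun k => (2 * k + 1).Prime ∧ ∃ q : ℕ, q.Prime ∧ q ∣ p k * r k ∧
        (q : ℝ) ≤ c * Real.log (p k) * Real.log (Real.log (p k)))).card : ℝ) ≤
      ε * (((range (x + 1)).filter (fun k => (2 * k + 1).Prime)).card : ℝ) := by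
  obtain ⟨c, hc, h1⟩ := bad_bound ε hε
  refine ⟨c, hc, fun x hx => h1 x hx _ (filter_subset _ _) ?_⟩
  intro k hk
  obtain ⟨a1, q, a2, a3, a4⟩ := (mem_filter.mp hk).2
  obtain ⟨e1, e2⟩ := eq_pw _ _ _ (h k)
  refine ⟨a1, q, a2, ?_, ?_⟩
  · rw [← e1, ← e2]; exact_mod_cast a3
  · rw [← e1]; exact_mod_cast a4

theorem infinite : ∃ c : ℝ, 0 < c ∧ Set.Infinite {s : ℕ × ℕ | 0 < s.1 ∧ 0 < s.2 ∧
    (s.1 : ℤ) ^ 2 - 2 * (s.2 : ℤ) ^ 2 = -1 ∧
    ∀ q : ℕ, q.Prime → q ∣ s.1 * s.2 → c * Real.log s.1 * Real.log (Real.log s.1) < q} := by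
  classical
  set p : ℕ → ℕ := fun k => (pw (2 * k + 1)).re.toNat with hp
  set r : ℕ → ℕ := fun k => (pw (2 * k + 1)).im.toNat with hr
  have e1 : ∀ k, (p k : ℤ) = (pw (2 * k + 1)).re := fun k =>
    Int.toNat_of_nonneg (by have := (pw_bounds (2 * k + 1)).2.1; omega)
  have e2 : ∀ k, (r k : ℤ) = (pw (2 * k + 1)).im := fun k =>
    Int.toNat_of_nonneg (pw_bounds (2 * k + 1)).2.2.1
  have h : ∀ k, (p k : ℝ) + r k * √2 = (1 + √2) ^ (2 * k + 1) := by
    intro k
    rw [pw_eval (√2 : ℝ) (Real.sq_sqrt (by norm_num)), ← e1, ← e2]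
    push_cast; ring
  obtain ⟨c, hc, h1⟩ := density p r h (1 / 2) (by norm_num)
  refine ⟨c, hc, ?_⟩
  set G : Set ℕ := {k | (2 * k + 1).Prime ∧ ¬ ∃ q : ℕ, q.Prime ∧ q ∣ p k * r k ∧
        (q : ℝ) ≤ c * Real.log (p k) * Real.log (Real.log (p k))} with hG
  have hGi : G.Infinite := by
    intro hfin
    have hinf : Set.Infinite {k : ℕ | (2 * k + 1).Prime} := by
      intro hf
      apply Nat.infinite_setOfPred_prime
      refine ((hf.image (fun k => 2 * k + 1)).insert 2).subset ?_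
      intro n hn
      rcases (hn : n.Prime).eq_two_or_odd' with rfl | ⟨k, rfl⟩
      · exact Set.mem_insert _ _
      · exact Set.mem_insert_of_mem _ ⟨k, hn, rfl⟩
    obtain ⟨T, hT1, hT2⟩ := hinf.exists_subset_card_eq (2 * hfin.toFinset.card + 1)
    set x := T.sup id + 300 with hx
    have h2 := h1 x (by omega)
    set A := (range (x + 1)).filter (fun k => (2 * k + 1).Prime) with hA
    set B := (range (x + 1)).filter (fun k => (2 * k + 1).Prime ∧ ∃ q : ℕ, q.Prime ∧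
      q ∣ p k * r k ∧ (q : ℝ) ≤ c * Real.log (p k) * Real.log (Real.log (p k))) with hB
    have h3 : T ⊆ A := by
      intro k hk
      have : k ≤ T.sup id := le_sup (f := id) hk
      exact mem_filter.mpr ⟨mem_range.mpr (by omega), hT1 hk⟩
    have h4 : A ⊆ B ∪ hfin.toFinset := by
      intro k hk
      obtain ⟨a1, a2⟩ := mem_filter.mp hk
      by_cases hb : k ∈ B
      · exact mem_union_left _ hb
      · refine mem_union_right _ (hfin.mem_toFinset.mpr ⟨a2, fun hc => hb ?_⟩)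
        exact mem_filter.mpr ⟨a1, a2, hc⟩
    have h5 := card_le_card h3
    have h6 := (card_le_card h4).trans (card_union_le _ _)
    have h7 : 2 * B.card ≤ A.card := by
      have : (2 * B.card : ℝ) ≤ A.card := by linarith
      exact_mod_cast this
    omega
  have hinj : Function.Injective (fun k => (p k, r k)) := by
    intro a b hab
    have h2 : r a = r b := congrArg Prod.snd hab
    have h3 : (pw (2 * a + 1)).im = (pw (2 * b + 1)).im := by rw [← e2, ← e2, h2]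
    have := pw_strictMono.injective h3
    omega
  refine (hGi.image hinj.injOn).mono ?_
  rintro _ ⟨k, ⟨-, hk⟩, rfl⟩
  have b1 := (pw_bounds (2 * k + 1)).2.1
  have b2 := (pw_bounds (2 * k + 1)).2.2.2.2.2 (by omega)
  rw [← e1] at b1
  rw [← e2] at b2
  refine ⟨by simp only; omega, by simp only; omega, ?_, ?_⟩
  · simp only
    rw [e1, e2, pw_norm, pow_succ, pow_mul]
    norm_num
  · intro q hq hd
    by_contra hcon
    exact hk ⟨q, hq, hd, not_lt.mp hcon⟩

end Pool.Agent.Lib.MP_927e73_nt
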