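import Mathlib

namespace Pool.Agent.Lib.MP_927e73_nt

/-- the `m`-th power of `1 + √2` -/
def pw (m : ℕ) : ℤ√2 := (1 + Zsqrtd.sqrtd) ^ m

lemma pw_succ_re (m : ℕ) : (pw (m + 1)).re = (pw m).re + 2 * (pw m).im := by
  simp [pw, pow_succ, Zsqrtd.re_mul]

lemma pw_succ_im (m : ℕ) : (pw (m + 1)).im = (pw m).re + (pw m).im := by
  simp [pw, pow_succ, Zsqrtd.im_mul]

lemma pw_bounds (m : ℕ) : (m : ℤ) ≤ (pw m).re ∧ 1 ≤ (pw m).re ∧ 0 ≤ (pw m).im ∧
    (pw m).re ≤ 3 ^ m ∧ (pw m).im ≤ 3 ^ m ∧ (1 ≤ m → 1 ≤ (pw m).im) := by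
  induction m with
  | zero => simp [pw]
  | succ m ih =>
    obtain ⟨h1, h2, h3, h4, h5, h6⟩ := ih
    rw [pw_succ_re, pw_succ_im, pow_succ]
    push_cast
    rcases Nat.eq_zero_or_pos m with rfl | hm
    · simp [pw]
    · have := h6 hm
      refine ⟨by omega, by omega, by omega, by omega, by omega, fun _ => by omega⟩

lemma pw_norm (m : ℕ) : (pw m).re ^ 2 - 2 * (pw m).im ^ 2 = (-1) ^ m := by
  induction m with
  | zero => simp [pw]
  | succ m ih =>
    rw [pw_succ_re, pw_succ_im, pow_succ (-1 : ℤ), ← ih]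
    ring

lemma pw_strictMono : StrictMono fun m => (pw m).im := by
  refine strictMono_nat_of_lt_succ fun m => ?_
  have := (pw_bounds m).2.1
  rw [pw_succ_im]; omega

lemma pw_eval {K : Type*} [CommRing K] (s : K) (hs : s ^ 2 = 2) (m : ℕ) :
    (1 + s) ^ m = (pw m).re + (pw m).im * s := by
  induction m with
  | zero => simp [pw]
  | succ m ih =>
    rw [pow_succ, ih, pw_succ_re, pw_succ_im]
    push_cast
    linear_combination ((pw m).im : K) * hs

lemma odd_of_norm {p r : ℤ} (h : p ^ 2 - 2 * r ^ 2 = -1) : ¬ 2 ∣ p * r := by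
  intro h2
  rcases Int.prime_two.dvd_or_dvd h2 with ⟨a, rfl⟩ | ⟨a, rfl⟩
  · have : (2 * a) ^ 2 - 2 * r ^ 2 = 2 * (2 * a ^ 2 - r ^ 2) := by ring
    omega
  · rcases Int.even_or_odd' p with ⟨b, rfl | rfl⟩
    · have : (2 * b) ^ 2 - 2 * (2 * a) ^ 2 = 2 * (2 * b ^ 2 - 4 * a ^ 2) := by ring
      omega
    · have : (2 * b + 1) ^ 2 - 2 * (2 * a) ^ 2 = 4 * (b ^ 2 + b - 2 * a ^ 2) + 1 := by ring
      omega

lemma rank_dvd {n q : ℕ} (hn : n.Prime) (hn2 : Odd n) (hq : q.Prime)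
    (h : (q : ℤ) ∣ (pw n).re * (pw n).im) : ∃ j : ℕ, 1 ≤ j ∧ (q = 2 * j * n + 1 ∨ q + 1 = 2 * j * n) := by
  have hnorm := pw_norm n
  rw [hn2.neg_one_pow] at hnorm
  have hq2 : q ≠ 2 := by
    rintro rfl
    exact odd_of_norm hnorm h
  have hqo : Odd q := hq.odd_of_ne_two hq2
  have := Fact.mk hq
  set K := AlgebraicClosure (ZMod q)
  have h2 : (2 : K) ≠ 0 := by
    intro h0
    have h1 : ((2 : ℕ) : K) = 0 := by exact_mod_cast h0
    rw [CharP.cast_eq_zero_iff K q] at h1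
    exact hq2 ((Nat.prime_dvd_prime_iff_eq hq Nat.prime_two).1 h1)
  obtain ⟨s, hs⟩ := IsAlgClosed.exists_pow_nat_eq (2 : K) (n := 2) (by norm_num)
  have hs' : (-s) ^ 2 = 2 := by rw [neg_sq, hs]
  have hab : (1 + s) * (1 + -s) = -1 := by linear_combination -hs
  have hab0 : (1 + s) * (1 + -s) ≠ 0 := by rw [hab]; exact neg_ne_zero.2 one_ne_zero
  have ha0 : (1 + s) ≠ 0 := left_ne_zero_of_mul hab0
  have hb0 : (1 + -s) ≠ 0 := right_ne_zero_of_mul hab0
  have hs0 : s ≠ 0 := by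
    rintro rfl; apply h2; rw [← hs]; ring
  set u := (1 + s) / (1 + -s) with hu
  have hu0 : u ≠ 0 := div_ne_zero ha0 hb0
  have hv : (u ^ 2) ^ n = 1 := by
    rw [← pow_mul, mul_comm, pow_mul, hu, div_pow, div_pow, div_eq_one_iff_eq (by positivity),
      pw_eval s hs, pw_eval (-s) hs']
    have h3 : (((pw n).re * (pw n).im : ℤ) : K) = 0 := (CharP.intCast_eq_zero_iff K q _).2 h
    rw [Int.cast_mul] at h3
    linear_combination (4 * s) * h3
  have hv1 : u ^ 2 ≠ 1 := by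
    rw [hu, div_pow, Ne, div_eq_one_iff_eq (by positivity)]
    intro h0
    have h4 : 2 * 2 * s = 0 := by linear_combination h0
    exact mul_ne_zero (mul_ne_zero h2 h2) hs0 h4
  have := Fact.mk hn
  have hord : orderOf (u ^ 2) = n := orderOf_eq_prime hv hv1
  have hfr : s ^ q = s ∨ s ^ q = -s := by
    apply sq_eq_sq_iff_eq_or_eq_neg.1
    rw [← pow_mul, mul_comm, pow_mul, hs]
    have : (2 : K) = 1 + 1 := by norm_num
    rw [this, add_pow_char]; simp
  have key : n ∣ q - 1 ∨ n ∣ q + 1 := by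
    rcases hfr with h1 | h1
    · left
      rw [← hord, orderOf_dvd_iff_pow_eq_one, ← pow_mul, mul_comm, pow_mul]
      have h3 : u ^ q = u := by
        rw [hu, div_pow, add_pow_char, add_pow_char, hqo.neg_pow, h1]; simp
      have h4 : u ^ (q - 1) = 1 := by
        apply mul_right_cancel₀ hu0
        rw [← pow_succ, Nat.sub_add_cancel hq.one_le, h3, one_mul]
      rw [h4, one_pow]
    · right
      rw [← hord, orderOf_dvd_iff_pow_eq_one, ← pow_mul, mul_comm, pow_mul]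
      have h4 : u ^ (q + 1) = 1 := by
        rw [pow_succ, hu, div_pow, add_pow_char, add_pow_char, hqo.neg_pow, h1]
        rw [one_pow, neg_neg, div_mul_div_comm, mul_comm, div_self hab0]
      rw [h4, one_pow]
  have hcop : Nat.Coprime 2 n := (Nat.coprime_two_left).2 hn2
  have hq1 := hq.two_le
  obtain ⟨t, ht⟩ := hqo
  rcases key with h1 | h1
  · obtain ⟨j, hj⟩ := hcop.mul_dvd_of_dvd_of_dvd ⟨t, by omega⟩ h1
    refine ⟨j, ?_, Or.inl ?_⟩
    · rcases j with _ | j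
      · omega
      · omega
    · rw [show 2 * j * n = 2 * n * j by ring]; omega
  · obtain ⟨j, hj⟩ := hcop.mul_dvd_of_dvd_of_dvd ⟨t + 1, by omega⟩ h1
    refine ⟨j, ?_, Or.inr ?_⟩
    · rcases j with _ | j
      · omega
      · omega
    · rw [show 2 * j * n = 2 * n * j by ring]; omega

end Pool.Agent.Lib.MP_927e73_nt
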